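import Pool.Agent.H79.MC.Targets

set_option autoImplicit false

namespace Pool.Agent.H16.MC

open Pool.Agent.H79.MC

theorem ev_le_mx (s : St) (e : Exp) : ev s e ≤ mx s e := by
  induction e with
  | lit k => exact le_rfl
  | reg i => exact le_rfl
  | get k e _ => exact le_max_right _ _
  | add e f _ _ => exact le_max_right _ _
  | sub e f he _ => exact le_trans (Nat.sub_le _ _) (le_trans he (le_max_left _ _))
  | mul e f _ _ => exact le_max_right _ _
  | div e f he _ => exact le_trans (Nat.div_le_self _ _) (le_trans he (le_max_left _ _))
  | mod e f he _ => exact le_trans (Nat.mod_le _ _) (le_trans he (le_max_left _ _))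

theorem run_mono {W W' : ℕ} (hW : W ≤ W') {p : Prog} {s s' : St} {t : ℕ}
    (h : Run W p s t s') : Run W' p s t s' := by
  induction h with
  | skip s => exact Run.skip s
  | set i e s h => exact Run.set i e s (h.trans hW)
  | put k e f s h h' => exact Run.put k e f s (h.trans hW) (h'.trans hW)
  | seq _ _ h1 h2 => exact Run.seq h1 h2
  | ite_true h he _ h1 => exact Run.ite_true (h.trans hW) he h1
  | ite_false h he _ h1 => exact Run.ite_false (h.trans hW) he h1
  | wh_false h he => exact Run.wh_false (h.trans hW) he
  | wh_true h he _ _ h1 h2 => exact Run.wh_true (h.trans hW) he h1 h2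

/-- MXW: the word bound can be increased; values are at most `mx` -/
theorem pf_mxw : T_MXW :=
  ⟨ev_le_mx, fun _ _ _ _ _ _ hW h => run_mono hW h⟩

end Pool.Agent.H16.MC
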